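import Pool.Agent.Helper62.NT.Goals

/-! # Packet NT-FINB (MP_8ff381_an): finite branching of the pieces -/

set_option autoImplicit false

noncomputable section

namespace Pool.Agent.Helper20.NT.FINB

open Pool.Agent.Helper62.NT

variable {H : Type} [MetricSpace H]

lemma spos (D : CD H) (n : ℕ) : 0 < D.s n := by
  have hB : (0 : ℝ) < D.B := by
    have := D.hB
    exact_mod_cast (by omega : 0 < D.B)
  exact div_pos D.hΔ (pow_pos hB n)

lemma smul' (D : CD H) {i n : ℕ} (h : i ≤ n) : D.s i = ((D.B ^ (n - i) : ℕ) : ℝ) * D.s n := by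
  have hB : (0 : ℝ) < D.B := by
    have := D.hB
    exact_mod_cast (by omega : 0 < D.B)
  obtain ⟨j, rfl⟩ := Nat.exists_eq_add_of_le h
  have e : i + j - i = j := by omega
  rw [e]
  unfold CD.s
  push_cast
  rw [pow_add]
  field_simp

lemma smono (D : CD H) {i n : ℕ} (h : i ≤ n) : D.s n ≤ D.s i := by
  rw [smul' D h]
  have h1 : (1 : ℝ) ≤ ((D.B ^ (n - i) : ℕ) : ℝ) := by
    have := D.hB
    exact_mod_cast Nat.one_le_pow _ _ (by omega)
  nlinarith [spos D n]

/-- multiples of a coarse scale, strictly below `(k + 1) s_n` -/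
lemma mul_le_of_lt (D : CD H) {i n k k' : ℕ} (h : i ≤ n)
    (hlt : (k' : ℝ) * D.s i < ((k : ℝ) + 1) * D.s n) : (k' : ℝ) * D.s i ≤ (k : ℝ) * D.s n := by
  have hs := spos D n
  rw [smul' D h, ← mul_assoc] at hlt ⊢
  have h1 : (k' : ℝ) * ((D.B ^ (n - i) : ℕ) : ℝ) < (k : ℝ) + 1 := lt_of_mul_lt_mul_right hlt hs.le
  have h2 : k' * D.B ^ (n - i) < k + 1 := by exact_mod_cast h1
  have h3 : k' * D.B ^ (n - i) ≤ k := by omega
  have h4 : (k' : ℝ) * ((D.B ^ (n - i) : ℕ) : ℝ) ≤ (k : ℝ) := by exact_mod_cast h3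
  exact mul_le_mul_of_nonneg_right h4 hs.le

/-- multiples of a coarse scale, strictly above `k s_n` -/
lemma le_mul_of_lt (D : CD H) {i n k k' : ℕ} (h : i ≤ n)
    (hlt : (k : ℝ) * D.s n < (k' : ℝ) * D.s i) : ((k : ℝ) + 1) * D.s n ≤ (k' : ℝ) * D.s i := by
  have hs := spos D n
  rw [smul' D h, ← mul_assoc] at hlt ⊢
  have h1 : (k : ℝ) < (k' : ℝ) * ((D.B ^ (n - i) : ℕ) : ℝ) := lt_of_mul_lt_mul_right hlt hs.le
  have h2 : k < k' * D.B ^ (n - i) := by exact_mod_cast h1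
  have h3 : k + 1 ≤ k' * D.B ^ (n - i) := by omega
  have h4 : (k : ℝ) + 1 ≤ (k' : ℝ) * ((D.B ^ (n - i) : ℕ) : ℝ) := by exact_mod_cast h3
  exact mul_le_mul_of_nonneg_right h4 hs.le

/-- the relevant kept points for the slab above `v` -/
def WW (D : CD H) (n k : ℕ) (v : H) : Set H :=
  {u | ∃ i k' : ℕ, 1 ≤ i ∧ i ≤ n ∧ 1 ≤ k' ∧ (k' : ℝ) * D.s i ≤ (k : ℝ) * D.s n ∧
    ((k : ℝ) + 1) * D.s n ≤ ((k' : ℝ) + 1) * D.s i ∧ u ∈ D.kept i (D.R.res v (k' * D.s i))}

lemma WW_fin (D : CD H) (n k : ℕ) (v : H) : (WW D n k v).Finite := by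
  have hJ : ({p : ℕ × ℕ | p.1 ≤ n ∧ p.2 ≤ k}).Finite := by
    refine ((Set.finite_Iic n).prod (Set.finite_Iic k)).subset ?_
    rintro ⟨a, b⟩ ⟨h1, h2⟩
    exact ⟨h1, h2⟩
  refine (hJ.biUnion (t := fun p => D.kept p.1 (D.R.res v (p.2 * D.s p.1)))
    (fun p _ => D.fin _ _)).subset ?_
  rintro u ⟨i, k', hi1, hin, hk1, hle, -, hu⟩
  refine Set.mem_biUnion (x := (i, k')) ?_ hu
  refine ⟨hin, ?_⟩
  have h1 : (k' : ℝ) * D.s n ≤ (k : ℝ) * D.s n := by
    refine le_trans ?_ hle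
    exact mul_le_mul_of_nonneg_left (smono D hin) (Nat.cast_nonneg _)
  have h2 : (k' : ℝ) ≤ k := le_of_mul_le_mul_right h1 (spos D n)
  exact_mod_cast h2

/-- `Prot` of the points of the slab -/
lemma prot_iff (D : CD H) (n k : ℕ) (v q : H) (hv : D.R.dep v = k * D.s n)
    (hvq : D.R.le v q) (hq : D.R.dep q = (k + 1) * D.s n) (t : ℝ) (ht : k * D.s n < t)
    (ht' : t ≤ (k + 1) * D.s n) :
    D.Prot n (D.R.res q t) ↔ ∃ u ∈ WW D n k v, t ≤ D.R.gp q u := by
  have hs := spos D n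
  have hk0 : 0 ≤ (k : ℝ) * D.s n := by positivity
  have ht0 : 0 ≤ t := hk0.trans ht.le
  have htq : t ≤ D.R.dep q := by rw [hq]; exact ht'
  have hdt : D.R.dep (D.R.res q t) = t := D.R.dep_res q t ht0 htq
  have hres : ∀ r : ℝ, 0 ≤ r → r ≤ k * D.s n → D.R.res (D.R.res q t) r = D.R.res v r := by
    intro r hr0 hr
    rw [D.R.res_res q r t hr0 (hr.trans ht.le) htq]
    have h1 : D.R.res q (D.R.dep v) = v := hvq.2
    rw [← h1, hv, D.R.res_res q r _ hr0 hr (ht.le.trans htq)]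
  constructor
  · rintro ⟨i, k', hi1, hin, hk1, hlt, hle, u, hu, hqu⟩
    rw [hdt] at hlt hle
    have h1 : (k' : ℝ) * D.s i ≤ (k : ℝ) * D.s n := mul_le_of_lt D hin (hlt.trans_le ht')
    have h2 : ((k : ℝ) + 1) * D.s n ≤ ((k' : ℝ) + 1) * D.s i := by
      have h3 : (k : ℝ) * D.s n < ((k' + 1 : ℕ) : ℝ) * D.s i := by
        push_cast
        exact ht.trans_le hle
      have h4 := le_mul_of_lt D hin h3
      push_cast at h4
      exact h4
    rw [hres _ (by have := spos D i; positivity) h1] at hu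
    refine ⟨u, ⟨i, k', hi1, hin, hk1, h1, h2, hu⟩, ?_⟩
    have h5 := hqu.1
    have h6 := hqu.2
    rw [hdt] at h5 h6
    exact (D.R.res_eq q u t ht0 htq h5).1 h6.symm
  · rintro ⟨u, ⟨i, k', hi1, hin, hk1, h1, h2, hu⟩, htu⟩
    have htu' : t ≤ D.R.dep u := by
      refine htu.trans ?_
      rw [D.R.gp_comm]
      exact D.R.gp_le u q
    refine ⟨i, k', hi1, hin, hk1, ?_, ?_, u, ?_, ?_, ?_⟩
    · rw [hdt]; exact h1.trans_lt ht
    · rw [hdt]; exact ht'.trans h2
    · rw [hres _ (by have := spos D i; positivity) h1]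
      exact hu
    · rw [hdt]; exact htu'
    · rw [hdt]
      exact ((D.R.res_eq q u t ht0 htq htu').2 htu).symm

theorem t : S_FINB := by
  intro H _ D n k v hn hk hv
  have hs := spos D n
  have hk0 : 0 ≤ (k : ℝ) * D.s n := by positivity
  refine ((WW_fin D n k v).image (fun u => D.R.res u ((k + 1) * D.s n))).subset ?_
  rintro q ⟨hc, hq, y, hqy, hy⟩
  have hvq : D.R.le v q := hc.1
  have hlt : (k : ℝ) * D.s n < (k + 1) * D.s n := by nlinarith
  have hself : D.R.res q ((k + 1) * D.s n) = q := by rw [← hq]; exact D.R.res_dep q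
  -- some relevant kept point is above `q`
  have key : ∃ u ∈ WW D n k v, (k + 1) * D.s n ≤ D.R.gp q u := by
    by_contra hno
    push Not at hno
    obtain ⟨z, hz, hmax⟩ := Set.exists_max_image (insert (k * D.s n) (D.R.gp q '' WW D n k v))
      id (((WW_fin D n k v).image _).insert _) (Set.insert_nonempty _ _)
    have hz1 : k * D.s n ≤ z := hmax _ (Set.mem_insert _ _)
    have hz2 : z < (k + 1) * D.s n := by
      rcases hz with rfl | ⟨u, hu, rfl⟩
      · exact hlt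
      · exact hno u hu
    have hcut : D.CP n q z := by
      unfold CD.CP
      refine ⟨k, hn, hk, hz1, hz2, ?_, ⟨(k + 1) * D.s n, hz2, hq.ge, le_rfl, ⟨y, ?_, hy⟩, ?_⟩, ?_⟩
      · intro t ht htz
        rw [prot_iff D n k v q hv hvq hq t ht (htz.trans hz2.le)]
        rcases hz with rfl | ⟨u, hu, rfl⟩
        · exact absurd ht (not_lt.2 htz)
        · exact ⟨u, hu, htz⟩
      · rw [hself]; exact hqy
      · intro t ht htz
        rw [prot_iff D n k v q hv hvq hq t (hz1.trans_lt ht) htz]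
        rintro ⟨u, hu, htu⟩
        have := hmax _ (Set.mem_insert_of_mem _ ⟨u, hu, rfl⟩)
        exact absurd (ht.trans_le htu) (not_lt.2 this)
      · intro n' _ z'' h1 h2
        exact hc.2 n' z'' (by rw [hv]; exact h1) (by rw [hq]; exact h2.trans hz2)
    exact hc.2 n z (by rw [hv]; exact hz1) (by rw [hq]; exact hz2) hcut
  obtain ⟨u, hu, hgu⟩ := key
  refine ⟨u, hu, ?_⟩
  have h1 : (k + 1) * D.s n ≤ D.R.dep u := by
    refine hgu.trans ?_
    rw [D.R.gp_comm]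
    exact D.R.gp_le u q
  have h2 := (D.R.res_eq q u ((k + 1) * D.s n) (hk0.trans hlt.le) hq.ge h1).2 hgu
  show D.R.res u ((k + 1) * D.s n) = q
  rw [← h2, hself]

end Pool.Agent.Helper20.NT.FINB
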